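import Mathlib

/-!
# Project RL, packages SQ, GU, GR (congruences for Graeffe transforms, square roots of power series)
-/

set_option autoImplicit false

open Polynomial

namespace Pool.Agent.P8H76.RL

section sq

variable {O : Type} [CommRing O]

/-- the solution of `s + s ^ 2 = v` -/
noncomputable def sol (v : ℕ → O) (n : ℕ) : O :=
  v n - ∑ i : Fin n, if h : i.1 = 0 then 0 else sol v i.1 * sol v (n - i.1)
termination_by n
decreasing_by
  · exact i.2
  · have := i.2
    omega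

lemma sol_eq (v : ℕ → O) (n : ℕ) :
    sol v n = v n - ∑ i ∈ Finset.range n, if i = 0 then 0 else sol v i * sol v (n - i) := by
  rw [sol, Finset.sum_range]
  rfl

lemma sol_sq (v : ℕ → O) (h0 : v 0 = 0) :
    PowerSeries.mk (sol v) + PowerSeries.mk (sol v) ^ 2 = PowerSeries.mk v := by
  have hs0 : sol v 0 = 0 := by
    rw [sol_eq]
    simpa using h0
  ext n
  rw [map_add, pow_two, PowerSeries.coeff_mul]
  simp only [PowerSeries.coeff_mk]
  rw [Finset.Nat.sum_antidiagonal_eq_sum_range_succ (fun i j => sol v i * sol v j), Finset.sum_range_succ,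
    Nat.sub_self, hs0, mul_zero, add_zero]
  have h1 := sol_eq v n
  have h2 : ∑ i ∈ Finset.range n, (if i = 0 then 0 else sol v i * sol v (n - i)) =
      ∑ i ∈ Finset.range n, sol v i * sol v (n - i) := by
    refine Finset.sum_congr rfl fun i _ => ?_
    by_cases hi : i = 0
    · rw [if_pos hi, hi, hs0, zero_mul]
    · rw [if_neg hi]
  rw [h2] at h1
  rw [h1]
  ring

theorem sq_core [IsDomain O] [CharZero O] (A B U : O[X]) (hA : A.coeff 0 = 1) (hB : B.coeff 0 = 1)
    (h : B = A + 4 * U) :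
    ∃ c : ℕ → O, c 0 = 1 ∧ (PowerSeries.mk c) ^ 2 = ((A * B : O[X]) : PowerSeries O) := by
  have hU : U.coeff 0 = 0 := by
    have h1 := congrArg (fun p : O[X] => p.coeff 0) h
    simp only [coeff_add, hA, hB] at h1
    have h2 : ((4 : O[X]) * U).coeff 0 = 4 * U.coeff 0 := by
      have : (4 : O[X]) = C 4 := (map_ofNat C 4).symm
      rw [this, coeff_C_mul]
    rw [h2] at h1
    have h3 : (4 : O) * U.coeff 0 = 0 := by linear_combination -h1
    exact (mul_eq_zero.1 h3).resolve_left (by norm_num)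
  have hA' : PowerSeries.constantCoeff (A : PowerSeries O) = ((1 : Oˣ) : O) := by
    rw [Units.val_one, ← hA, ← PowerSeries.coeff_zero_eq_constantCoeff_apply, Polynomial.coeff_coe]
  set I := PowerSeries.invOfUnit (A : PowerSeries O) 1 with hI
  have hAI : (A : PowerSeries O) * I = 1 := PowerSeries.mul_invOfUnit _ _ hA'
  set v : ℕ → O := fun n => PowerSeries.coeff n ((U : PowerSeries O) * I) with hv
  have hmk : PowerSeries.mk v = (U : PowerSeries O) * I := by
    ext n
    rw [PowerSeries.coeff_mk]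
  have hv0 : v 0 = 0 := by
    rw [hv]
    show PowerSeries.coeff 0 ((U : PowerSeries O) * I) = 0
    rw [PowerSeries.coeff_zero_eq_constantCoeff_apply, map_mul, ← PowerSeries.coeff_zero_eq_constantCoeff_apply,
      Polynomial.coeff_coe, hU, zero_mul]
  have hs := sol_sq v hv0
  rw [hmk] at hs
  set s := PowerSeries.mk (sol v) with hsd
  refine ⟨fun n => PowerSeries.coeff n ((A : PowerSeries O) * (1 + 2 * s)), ?_, ?_⟩
  · have hs0 : PowerSeries.constantCoeff s = 0 := by
      rw [← PowerSeries.coeff_zero_eq_constantCoeff_apply, hsd, PowerSeries.coeff_mk, sol_eq]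
      simpa using hv0
    show PowerSeries.coeff 0 ((A : PowerSeries O) * (1 + 2 * s)) = 1
    rw [PowerSeries.coeff_zero_eq_constantCoeff_apply, map_mul, map_add, map_mul, hs0, hA']
    simp
  · have h1 : PowerSeries.mk (fun n => PowerSeries.coeff n ((A : PowerSeries O) * (1 + 2 * s))) =
        (A : PowerSeries O) * (1 + 2 * s) := by
      ext n
      rw [PowerSeries.coeff_mk]
    rw [h1, h, Polynomial.coe_mul, Polynomial.coe_add, Polynomial.coe_mul]
    have h4 : ((4 : O[X]) : PowerSeries O) = 4 := by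
      have : (4 : O[X]) = C 4 := (map_ofNat C 4).symm
      rw [this, Polynomial.coe_C]
      exact map_ofNat _ 4
    rw [h4]
    linear_combination (4 * (A : PowerSeries O) ^ 2) * hs + 4 * (A : PowerSeries O) * (U : PowerSeries O) * hAI

end sq

section graeffe

variable {O : Type} [CommRing O]

/-- division of the coefficients -/
lemma lift_sq (c : O) (P Q G : O[X]) (h : P.comp (X ^ 2) = Q.comp (X ^ 2) + C c * G) :
    ∃ U : O[X], P = Q + C c * U := by
  refine ⟨contract 2 G, ?_⟩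
  rw [← expand_eq_comp_X_pow, ← expand_eq_comp_X_pow] at h
  ext n
  have h1 := congrArg (fun p : O[X] => p.coeff (n * 2)) h
  simp only [coeff_add, coeff_C_mul] at h1
  rw [coeff_expand_mul (by norm_num), coeff_expand_mul (by norm_num)] at h1
  rw [coeff_add, coeff_C_mul, coeff_contract (by norm_num), h1]

/-- `P(-X) = P(X)` modulo `2` -/
lemma neg_mod (P : O[X]) : ∃ V : O[X], P.comp (-X) = P + C 2 * V := by
  induction P using Polynomial.induction_on' with
  | add p q hp hq =>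
    obtain ⟨V, hV⟩ := hp
    obtain ⟨W, hW⟩ := hq
    refine ⟨V + W, ?_⟩
    rw [add_comp, hV, hW]
    ring
  | monomial n a =>
    rw [monomial_comp]
    rcases neg_pow_eq_or (X : O[X]) n with h | h
    · refine ⟨0, ?_⟩
      rw [h, C_mul_X_pow_eq_monomial]
      ring
    · refine ⟨-monomial n a, ?_⟩
      rw [h, mul_neg, C_mul_X_pow_eq_monomial]
      have : (C 2 : O[X]) = 2 := map_ofNat C 2
      rw [this]
      ring
where
  neg_pow_eq_or (x : O[X]) (n : ℕ) : (-x) ^ n = x ^ n ∨ (-x) ^ n = -x ^ n := by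
    rcases Nat.even_or_odd n with h | h
    · exact Or.inl (h.neg_pow x)
    · exact Or.inr (h.neg_pow x)

/-- `P(X) ^ 2 = (φ P)(X ^ 2)` modulo `2` -/
lemma sq_mod (φ : O →+* O) (a : ℕ → O) (ha : ∀ n, ∃ y, (a n) ^ 2 = φ (a n) + 2 * y) (N : ℕ) :
    ∃ G : O[X], (∑ n ∈ Finset.range N, C (a n) * X ^ n) ^ 2 =
      ((∑ n ∈ Finset.range N, C (a n) * X ^ n).map φ).comp (X ^ 2) + C 2 * G := by
  induction N with
  | zero => exact ⟨0, by simp⟩
  | succ N ih =>
    obtain ⟨G, hG⟩ := ih
    obtain ⟨y, hy⟩ := ha N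
    refine ⟨G + (∑ n ∈ Finset.range N, C (a n) * X ^ n) * (C (a N) * X ^ N) + C y * X ^ (2 * N), ?_⟩
    rw [Finset.sum_range_succ, Polynomial.map_add, add_comp, add_sq, hG]
    have h1 : ((C (a N) * X ^ N : O[X]).map φ).comp (X ^ 2) = C (φ (a N)) * X ^ (2 * N) := by
      rw [Polynomial.map_mul, map_C, Polynomial.map_pow, map_X, mul_comp, C_comp, pow_comp, X_comp, ← pow_mul]
    have h2 : (C (a N) * X ^ N : O[X]) ^ 2 = C (φ (a N)) * X ^ (2 * N) + C 2 * (C y * X ^ (2 * N)) := by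
      rw [mul_pow, ← C_pow, hy, C_add, C_mul, ← pow_mul, mul_comm N 2]
      ring
    have h3 : (C 2 : O[X]) = 2 := map_ofNat C 2
    rw [h1, h2, h3]
    ring

lemma sq_mod' (φ : O →+* O) (R : O[X]) (ha : ∀ n, ∃ y, (R.coeff n) ^ 2 = φ (R.coeff n) + 2 * y) :
    ∃ G : O[X], R ^ 2 = (R.map φ).comp (X ^ 2) + C 2 * G := by
  have h := sq_mod φ R.coeff ha (R.natDegree + 1)
  rwa [← R.as_sum_range_C_mul_X_pow] at h

theorem gu_core (φ : O →+* O) (R R2 R4 : O[X])
    (ha : ∀ n, ∃ y, (R.coeff n) ^ 2 = φ (R.coeff n) + 2 * y)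
    (h2 : R2.comp (X ^ 2) = R * R.comp (-X)) (h4 : R4.comp (X ^ 2) = R2 * R2.comp (-X)) :
    ∃ U : O[X], R4 = R2.map φ + 4 * U := by
  obtain ⟨G, hG⟩ := sq_mod' φ R ha
  obtain ⟨V0, hV0⟩ := neg_mod R
  obtain ⟨V, hV⟩ := lift_sq 2 R2 (R.map φ) (G + R * V0) (by
    rw [h2, hV0]
    linear_combination hG)
  obtain ⟨V1, hV1⟩ := neg_mod V
  obtain ⟨W1, hW1⟩ := neg_mod (R.map φ)
  have h5 : (R2.map φ).comp (X ^ 2) = R.map φ * (R.map φ).comp (-X) := by
    have h6 := congrArg (Polynomial.map φ) h2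
    rw [Polynomial.map_comp, Polynomial.map_mul, Polynomial.map_comp, Polynomial.map_pow, map_X, Polynomial.map_neg,
      map_X] at h6
    exact h6
  have h7 : (4 : O[X]) = C 4 := (map_ofNat C 4).symm
  rw [h7]
  apply lift_sq 4 R4 (R2.map φ) (R.map φ * V + R.map φ * V1 + V * W1 + V * V.comp (-X))
  have h8 : R2.comp (-X) = (R.map φ).comp (-X) + C 2 * V.comp (-X) := by
    rw [hV, add_comp, mul_comp, C_comp]
  have h9 : (C 2 : O[X]) = 2 := map_ofNat C 2
  rw [h4, h8, h5, hV]
  rw [hV1, hW1, h9]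
  rw [← h7]
  ring

lemma map_mod (s : O →+* O) (a : ℕ → O) (ha : ∀ n, ∃ y, s (a n) = a n + 2 * y) (N : ℕ) :
    ∃ V : O[X], (∑ n ∈ Finset.range N, C (a n) * X ^ n).map s =
      (∑ n ∈ Finset.range N, C (a n) * X ^ n) + C 2 * V := by
  choose y hy using ha
  refine ⟨∑ n ∈ Finset.range N, C (y n) * X ^ n, ?_⟩
  rw [Polynomial.map_sum, Finset.mul_sum, ← Finset.sum_add_distrib]
  refine Finset.sum_congr rfl fun n _ => ?_
  rw [Polynomial.map_mul, map_C, Polynomial.map_pow, map_X, hy n, C_add, C_mul]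
  ring

theorem gr_core (s : O →+* O) (R R2 : O[X]) (ha : ∀ n, ∃ y, s (R.coeff n) = R.coeff n + 2 * y)
    (h2 : R2.comp (X ^ 2) = R * R.comp (-X)) : ∃ U : O[X], R2.map s = R2 + 4 * U := by
  have hV : ∃ V : O[X], R.map s = R + C 2 * V := by
    have h := map_mod s R.coeff ha (R.natDegree + 1)
    rwa [← R.as_sum_range_C_mul_X_pow] at h
  obtain ⟨V, hV⟩ := hV
  obtain ⟨V1, hV1⟩ := neg_mod V
  obtain ⟨W1, hW1⟩ := neg_mod R
  have h5 : (R2.map s).comp (X ^ 2) = R.map s * (R.map s).comp (-X) := by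
    have h6 := congrArg (Polynomial.map s) h2
    rw [Polynomial.map_comp, Polynomial.map_mul, Polynomial.map_comp, Polynomial.map_pow, map_X, Polynomial.map_neg,
      map_X] at h6
    exact h6
  have h7 : (4 : O[X]) = C 4 := (map_ofNat C 4).symm
  rw [h7]
  apply lift_sq 4 (R2.map s) R2 (R * V + R * V1 + V * W1 + V * V.comp (-X))
  have h8 : (R.map s).comp (-X) = R.comp (-X) + C 2 * V.comp (-X) := by
    rw [hV, add_comp, mul_comp, C_comp]
  have h9 : (C 2 : O[X]) = 2 := map_ofNat C 2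
  rw [h5, h8, h2, hV, hV1, hW1, h9, ← h7]
  ring

end graeffe

end Pool.Agent.P8H76.RL
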