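import Pool.Agent.P8H96.RL.Stm
import Pool.Agent.P8H76.RL.Core

/-!
# Project RL: package CYC, the structure of a cyclotomic field
-/

set_option autoImplicit false

open Polynomial
open scoped NumberField

namespace Pool.Agent.P8H76.RL

open Pool.Agent.P8H96.RL

section ring

/-- `g(X) + g(-X) = 2 h(X ^ 2)` -/
lemma even_part (g : ℤ[X]) : ∃ h : ℤ[X], g + g.comp (-X) = C 2 * h.comp (X ^ 2) := by
  have h2 : (C 2 : ℤ[X]) = 2 := map_ofNat C 2
  induction g using Polynomial.induction_on' with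
  | add p q hp hq =>
    obtain ⟨V, hV⟩ := hp
    obtain ⟨W, hW⟩ := hq
    refine ⟨V + W, ?_⟩
    rw [add_comp, add_comp]
    linear_combination hV + hW
  | monomial n a =>
    rcases Nat.even_or_odd' n with ⟨k, rfl | rfl⟩
    · refine ⟨C a * X ^ k, ?_⟩
      rw [monomial_comp, (even_two_mul k).neg_pow, C_mul_X_pow_eq_monomial, mul_comp, C_comp, pow_comp, X_comp,
        ← pow_mul, C_mul_X_pow_eq_monomial, h2]
      ring
    · refine ⟨0, ?_⟩
      rw [monomial_comp, (odd_two_mul_add_one k).neg_pow, mul_neg, C_mul_X_pow_eq_monomial, zero_comp, mul_zero]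
      ring

variable {A : Type} [CommRing A]

lemma map_aev (ψ : A →+* A) (u : A) (g : ℤ[X]) : ψ (aeval u g) = aeval (ψ u) g :=
  (Polynomial.aeval_algHom_apply ψ.toIntAlgHom u g).symm

lemma aev_two (u : A) (V : ℤ[X]) : aeval u (C 2 * V) = 2 * aeval u V := by
  rw [map_mul, aeval_C]
  congr 1
  simp

lemma aev_neg (u : A) (g : ℤ[X]) : aeval (-u) g = aeval u (g.comp (-X)) := by
  rw [aeval_comp]
  congr 1
  simp

lemma aev_sq (u : A) (g : ℤ[X]) : aeval (u ^ 2) g = aeval u (g.comp (X ^ 2)) := by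
  rw [aeval_comp]
  congr 1
  simp

lemma neg_case (ψ : A →+* A) (u : A) (hu : ψ u = -u) (g : ℤ[X]) :
    ∃ y, ψ (aeval u g) = aeval u g + 2 * y := by
  obtain ⟨V, hV⟩ := neg_mod g
  refine ⟨aeval u V, ?_⟩
  rw [map_aev, hu, aev_neg, hV, map_add, aev_two]

lemma fix_case [IsDomain A] [CharZero A] (ψ : A →+* A) (u : A) (hu : ψ u = -u) (g : ℤ[X])
    (hfix : ψ (aeval u g) = aeval u g) : ∃ h : ℤ[X], aeval (u ^ 2) h = aeval u g := by
  obtain ⟨h, hh⟩ := even_part g
  refine ⟨h, ?_⟩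
  rw [map_aev, hu, aev_neg] at hfix
  have h1 := congrArg (aeval u) hh
  rw [map_add, hfix, aev_two, ← aev_sq] at h1
  have h3 : (2 : A) * aeval (u ^ 2) h = 2 * aeval u g := by
    rw [← h1]
    ring
  exact mul_left_cancel₀ two_ne_zero h3

lemma frob_case (ψ : A →+* A) (u : A) (hu : ψ u = u ^ 2 ∨ ψ u = -u ^ 2) (g : ℤ[X]) :
    ∃ y, (aeval u g) ^ 2 = ψ (aeval u g) + 2 * y := by
  obtain ⟨G, hG⟩ := sq_mod' (RingHom.id ℤ) g (by
    intro n
    obtain ⟨y, hy⟩ := Int.even_mul_pred_self (g.coeff n)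
    refine ⟨y, ?_⟩
    rw [RingHom.id_apply]
    linear_combination hy)
  rw [Polynomial.map_id] at hG
  have h1 := congrArg (aeval u) hG
  rw [map_pow, map_add, aev_two, ← aev_sq] at h1
  rcases hu with hu | hu
  · refine ⟨aeval u G, ?_⟩
    rw [map_aev, hu, h1]
  · obtain ⟨V, hV⟩ := neg_mod g
    refine ⟨aeval u G - aeval (u ^ 2) V, ?_⟩
    rw [map_aev, hu, aev_neg, hV, map_add, aev_two, h1]
    ring

end ring

lemma exists_aut (m : ℕ) [NeZero m] (k : Type) [Field k] [NumberField k] [IsCyclotomicExtension {m} ℚ k]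
    (e : ℕ) (he : e.Coprime m) :
    ∃ s : k ≃+* k, s (IsCyclotomicExtension.zeta m ℚ k) = (IsCyclotomicExtension.zeta m ℚ k) ^ e := by
  have hζ := IsCyclotomicExtension.zeta_spec m ℚ k
  have hμ : IsPrimitiveRoot ((IsCyclotomicExtension.zeta m ℚ k) ^ e) m := hζ.pow_of_coprime e he
  have hirr : Irreducible (cyclotomic m ℚ) := Polynomial.cyclotomic.irreducible_rat (NeZero.pos m)
  exact ⟨(IsCyclotomicExtension.fromZetaAut hμ hirr).toRingEquiv,
    IsCyclotomicExtension.fromZetaAut_spec hμ hirr⟩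

theorem cyc : S_CYC := by
  intro m _ k _ _ _
  have hm0 : m ≠ 0 := NeZero.ne m
  have hζ := IsCyclotomicExtension.zeta_spec m ℚ k
  obtain ⟨z, hz⟩ : ∃ z : 𝓞 k, z = hζ.toInteger := ⟨_, rfl⟩
  have hzp : IsPrimitiveRoot z m := by
    rw [hz]
    exact hζ.toInteger_isPrimitiveRoot
  have hzc : (z : k) = IsCyclotomicExtension.zeta m ℚ k := by
    rw [hz]
    rfl
  have hunit : IsUnit z := hzp.isUnit hm0
  obtain ⟨w, hw⟩ := hunit
  have hmap : ∀ (s : k ≃+* k) (e : ℕ), s (IsCyclotomicExtension.zeta m ℚ k) = (IsCyclotomicExtension.zeta m ℚ k) ^ e →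
      ∀ t : ℕ, NumberField.RingOfIntegers.mapRingEquiv s (z ^ t) = (z ^ t) ^ e := by
    intro s e hs t
    have h1 : NumberField.RingOfIntegers.mapRingEquiv s z = z ^ e := by
      apply NumberField.RingOfIntegers.ext
      have h2 : ((z ^ e : 𝓞 k) : k) = (z : k) ^ e := map_pow (algebraMap (𝓞 k) k) z e
      rw [NumberField.RingOfIntegers.mapRingEquiv_apply, hzc, hs, h2, hzc]
    rw [map_pow, h1, ← pow_mul, ← pow_mul, mul_comm]
  -- the power of two
  obtain ⟨a, ha⟩ : ∃ a : ℕ, a = m.factorization 2 := ⟨_, rfl⟩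
  obtain ⟨m', hm'⟩ : ∃ m' : ℕ, m' = m / 2 ^ m.factorization 2 := ⟨_, rfl⟩
  have hmm : m = 2 ^ a * m' := by
    rw [ha, hm']
    exact (Nat.ordProj_mul_ordCompl_eq_self m 2).symm
  have hcop : Nat.Coprime 2 m' := by
    rw [hm']
    exact Nat.coprime_ordCompl Nat.prime_two hm0
  have hodd : Odd m' := Nat.coprime_two_left.1 hcop
  have hm'0 : 0 < m' := hodd.pos
  have hneg : 1 ≤ a → z ^ (2 ^ (a - 1) * m') = -1 := by
    intro h1
    have h2 : 2 ^ (a - 1) * m' * 2 = m := by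
      rw [hmm]
      obtain ⟨b, rfl⟩ : ∃ b, a = b + 1 := ⟨a - 1, by omega⟩
      rw [Nat.add_sub_cancel, pow_succ]
      ring
    have h3 : z ^ (2 ^ (a - 1) * m') * z ^ (2 ^ (a - 1) * m') = 1 := by
      rw [← pow_add, ← mul_two, h2, hzp.pow_eq_one]
    have hpos : 0 < 2 ^ (a - 1) * m' := Nat.mul_pos (pow_pos (by norm_num) _) hm'0
    rcases mul_self_eq_one_iff.1 h3 with h4 | h4
    · exact absurd h4 (hzp.pow_ne_one_of_pos_of_lt hpos.ne' (by omega))
    · exact h4
  have hmem : ∀ t : ℕ, ∀ x : 𝓞 k, x ∈ (Algebra.adjoin ℤ {z ^ (2 ^ t)}).toSubring ↔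
      ∃ g : ℤ[X], aeval (z ^ (2 ^ t)) g = x := by
    intro t x
    rw [Subalgebra.mem_toSubring, Algebra.adjoin_singleton_eq_range_aeval]
    exact AlgHom.mem_range _
  refine ⟨a - 1, fun t => (Algebra.adjoin ℤ {z ^ (2 ^ t)}).toSubring, fun t => w ^ (2 ^ t), ?_, ?_, ?_, ?_, ?_⟩
  · have h1 := IsCyclotomicExtension.Rat.adjoin_singleton_eq_top hζ
    rw [← hz] at h1
    ext x
    rw [Subalgebra.mem_toSubring, pow_zero, pow_one, h1]
    exact ⟨fun _ => Subring.mem_top x, fun _ => Algebra.mem_top⟩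
  · intro σ t
    have h1 : ‖emb σ z‖ = 1 := by
      refine Complex.norm_eq_one_of_pow_eq_one (n := m) ?_ hm0
      rw [← map_pow, hzp.pow_eq_one, map_one]
    rw [Units.val_pow_eq_pow_val, hw, map_pow, norm_pow, h1, one_pow]
  · intro t
    rw [hmem, Units.val_pow_eq_pow_val, hw]
    exact ⟨X, aeval_X _⟩
  · intro t ht
    have hcope : Nat.Coprime (1 + 2 ^ (a - t - 1) * m') m := by
      rw [hmm]
      refine Nat.Coprime.mul_right (Nat.Coprime.pow_right _ ?_) ?_
      · rw [Nat.coprime_two_right]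
        have h1 : a - t - 1 ≠ 0 := by omega
        have h2 : Even (2 ^ (a - t - 1) * m') := ((even_two.pow_of_ne_zero h1)).mul_right m'
        exact odd_one.add_even h2
      · rw [Nat.coprime_add_mul_right_left]
        exact Nat.coprime_one_left m'
    obtain ⟨s, hs⟩ := exists_aut m k _ hcope
    have hsu : NumberField.RingOfIntegers.mapRingEquiv s (z ^ (2 ^ t)) = -(z ^ (2 ^ t)) := by
      rw [hmap s _ hs, ← pow_mul, mul_add, mul_one, pow_add]
      have h1 : 2 ^ t * (2 ^ (a - t - 1) * m') = 2 ^ (a - 1) * m' := by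
        rw [← mul_assoc, ← pow_add]
        congr 2
        omega
      rw [h1, hneg (by omega)]
      ring
    refine ⟨s, ?_, ?_, ?_⟩
    · intro x hx
      obtain ⟨g, rfl⟩ := (hmem t x).1 hx
      exact neg_case (NumberField.RingOfIntegers.mapRingEquiv s : 𝓞 k →+* 𝓞 k) (z ^ (2 ^ t)) hsu g
    · rw [Units.val_pow_eq_pow_val, hw]
      exact hsu
    · intro x hx hfix
      obtain ⟨g, rfl⟩ := (hmem t x).1 hx
      obtain ⟨h, hh⟩ := fix_case (NumberField.RingOfIntegers.mapRingEquiv s : 𝓞 k →+* 𝓞 k) (z ^ (2 ^ t)) hsu g hfix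
      rw [hmem]
      refine ⟨h, ?_⟩
      rw [← hh, ← pow_mul, pow_succ]
  · obtain ⟨φ, hφ⟩ : ∃ φ : k ≃+* k, NumberField.RingOfIntegers.mapRingEquiv φ (z ^ (2 ^ (a - 1))) = (z ^ (2 ^ (a - 1))) ^ 2 ∨
        NumberField.RingOfIntegers.mapRingEquiv φ (z ^ (2 ^ (a - 1))) = -(z ^ (2 ^ (a - 1))) ^ 2 := by
      by_cases h0 : a = 0
      · have hcope : Nat.Coprime 2 m := by
          rw [hmm, h0, pow_zero, one_mul]
          exact hcop
        obtain ⟨φ, hφ⟩ := exists_aut m k _ hcope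
        exact ⟨φ, Or.inl (hmap φ _ hφ _)⟩
      · have hcope : Nat.Coprime (2 + m') m := by
          rw [hmm]
          refine Nat.Coprime.mul_right (Nat.Coprime.pow_right _ ?_) ?_
          · rw [Nat.coprime_two_right]
            exact even_two.add_odd hodd
          · rw [Nat.coprime_add_self_left]
            exact hcop
        obtain ⟨φ, hφ⟩ := exists_aut m k _ hcope
        refine ⟨φ, Or.inr ?_⟩
        rw [hmap φ _ hφ, pow_add, ← pow_mul z (2 ^ (a - 1)) m', hneg (by omega)]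
        ring
    refine ⟨φ, fun x hx => ?_⟩
    obtain ⟨g, rfl⟩ := (hmem (a - 1) x).1 hx
    exact frob_case (NumberField.RingOfIntegers.mapRingEquiv φ : 𝓞 k →+* 𝓞 k) (z ^ (2 ^ (a - 1))) hφ g

end Pool.Agent.P8H76.RL
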