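import Pool.Agent.P8H96.RL.Stm
import Pool.Agent.P8H76.RL.Core

/-!
# Project RL: packages SQ, GU, GR
-/

set_option autoImplicit false

open Polynomial

namespace Pool.Agent.P8H76.RL

open Pool.Agent.P8H96.RL

theorem sq : S_SQ := by
  intro O _ _ _ A B U hA hB h
  exact sq_core A B U hA hB h

theorem gu : S_GU := by
  intro O _ _ _ φ R R2 R4 ha h2 h4
  exact gu_core φ R R2 R4 ha h2 h4

theorem gr : S_GR := by
  intro O _ _ _ s R R2 ha h2
  exact gr_core s R R2 ha h2

end Pool.Agent.P8H76.RL
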